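import Pool.Agent.X105.BE.Bmo2

set_option autoImplicit false

/-!
# Bounded extremal functions have kernels in `BMOA`

For every `1 < p < ∞`: if the `A^p` extremal function `F` of a nonzero kernel `k ∈ A^q` is bounded,
then `k ∈ BMOA` (question Q2 of the problem, answered affirmatively).
-/

namespace Pool.Agent.Results.MP_7d928b_an.BoundedExtremalBMOA

open MeasureTheory Complex Metric Filter Topology

noncomputable section

/-- The Bergman space `A^r` of the disc (with respect to area measure). -/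
def MemBergman (r : ℝ) (f : ℂ → ℂ) : Prop :=
  DifferentiableOn ℂ f (ball 0 1) ∧ IntegrableOn (fun z => ‖f z‖ ^ r) (ball (0 : ℂ) 1)

/-- The norm of `A^r`. -/
def bergmanNorm (r : ℝ) (f : ℂ → ℂ) : ℝ := (∫ z in ball (0 : ℂ) 1, ‖f z‖ ^ r) ^ (1 / r)

/-- The functional `f ↦ ∫ f conj(k) dA` with kernel `k`. -/
def phi (k f : ℂ → ℂ) : ℂ := ∫ z in ball (0 : ℂ) 1, f z * (starRingEnd ℂ) (k z)

/-- `F` is the `A^p` extremal function for the kernel `k`: it has norm one and maximises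
`Re ∫ f conj(k) dA` over the unit sphere of `A^p`. -/
def IsExtremal (p : ℝ) (k F : ℂ → ℂ) : Prop :=
  MemBergman p F ∧ bergmanNorm p F = 1 ∧
    ∀ f : ℂ → ℂ, MemBergman p f → bergmanNorm p f = 1 → (phi k f).re ≤ (phi k F).re

/-- The space `H^∞` of bounded analytic functions on the disc. -/
def MemHInf (f : ℂ → ℂ) : Prop :=
  DifferentiableOn ℂ f (ball 0 1) ∧ ∃ M : ℝ, ∀ z ∈ ball (0 : ℂ) 1, ‖f z‖ ≤ M

/-- The Hardy space `H²`. -/
def MemHardyTwo (f : ℂ → ℂ) : Prop :=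
  DifferentiableOn ℂ f (ball 0 1) ∧ ∃ C : ℝ, ∀ r : ℝ, 0 < r → r < 1 →
    (1 / (2 * Real.pi)) * ∫ θ in (0 : ℝ)..(2 * Real.pi),
      ‖f (r * Complex.exp (θ * Complex.I))‖ ^ 2 ≤ C

/-- `b` (as a function of the angle) gives the boundary values of `f`: radial limits almost
everywhere. -/
def IsBoundaryValue (f : ℂ → ℂ) (b : ℝ → ℂ) : Prop :=
  Function.Periodic b (2 * Real.pi) ∧
    ∀ᵐ θ : ℝ, Tendsto (fun r : ℝ => f (r * Complex.exp (θ * Complex.I))) (𝓝[<] 1) (𝓝 (b θ))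

/-- `b` has bounded mean oscillation on the unit circle (arcs of length at most `2π`). -/
def IsBMO (b : ℝ → ℂ) : Prop :=
  (∀ α β : ℝ, IntervalIntegrable b volume α β) ∧
    ∃ C : ℝ, ∀ α β : ℝ, α < β → β ≤ α + 2 * Real.pi →
      (1 / (β - α)) * ∫ θ in α..β, ‖b θ - (1 / (β - α)) • ∫ t in α..β, b t‖ ≤ C

/-- The space `BMOA`: functions in `H²` whose boundary values have bounded mean oscillation. -/
def MemBMOA (f : ℂ → ℂ) : Prop :=
  MemHardyTwo f ∧ ∃ b : ℝ → ℂ, IsBoundaryValue f b ∧ IsBMO b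

/-- For all `1 < p < ∞`, `q = p/(p-1)`: if the `A^p` extremal function `F` of the nonzero kernel
`k ∈ A^q` is bounded then `k ∈ BMOA`. -/
theorem result (p q : ℝ) (hp : 1 < p) (hq : q = p / (p - 1)) (k F : ℂ → ℂ)
    (hk : MemBergman q k) (_hk0 : ∃ z ∈ ball (0 : ℂ) 1, k z ≠ 0) (hF : IsExtremal p k F)
    (hFb : MemHInf F) : MemBMOA k := by
  have hpq : p.HolderConjugate q := by rw [hq]; exact Real.HolderConjugate.conjExponent hp
  obtain ⟨⟨hFd, hFi⟩, hF1, hext⟩ := hF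
  obtain ⟨-, M, hM⟩ := hFb
  have hp0 : 0 < p := by linarith
  have hpi := Real.pi_pos
  have hone : ∀ g : ℂ → ℂ, bergmanNorm p g = 1 ↔ ∫ z in ball (0 : ℂ) 1, ‖g z‖ ^ p = 1 := by
    intro g
    have h0 : 0 ≤ ∫ z in ball (0 : ℂ) 1, ‖g z‖ ^ p := integral_nonneg fun z => by positivity
    unfold bergmanNorm
    constructor
    · intro h
      have := congrArg (fun x : ℝ => x ^ p) h
      simp only [Real.one_rpow] at this
      rwa [← Real.rpow_mul h0, one_div, inv_mul_cancel₀ hp0.ne', Real.rpow_one] at this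
    · intro h
      rw [h, Real.one_rpow]
  -- rescale to normalised area measure
  set c : ℝ := Real.pi ^ (1 / p) with hc
  have hc0 : 0 < c := by positivity
  have hcp : c ^ p = Real.pi := by
    rw [hc, ← Real.rpow_mul hpi.le, one_div, inv_mul_cancel₀ hp0.ne', Real.rpow_one]
  have hscale : ∀ (a : ℝ), 0 < a → ∀ (g : ℂ → ℂ) (z : ℂ), ‖(a : ℂ) * g z‖ ^ p = a ^ p * ‖g z‖ ^ p := by
    intro a ha g z
    rw [norm_mul, Complex.norm_real, Real.norm_of_nonneg ha.le,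
      Real.mul_rpow ha.le (norm_nonneg _)]
  set F' : ℂ → ℂ := fun z => (c : ℂ) * F z with hF'
  have hF'd : DifferentiableOn ℂ F' (ball 0 1) := hFd.const_mul _
  have hF'b : ∀ z ∈ ball (0 : ℂ) 1, ‖F' z‖ ≤ c * M := by
    intro z hz
    rw [hF', norm_mul, Complex.norm_real, Real.norm_of_nonneg hc0.le]
    exact mul_le_mul_of_nonneg_left (hM z hz) hc0.le
  have hF'1 : ∫ z, ‖F' z‖ ^ p ∂Pool.Agent.X105.BE.sig = 1 := by
    rw [Pool.Agent.X105.BE.integral_sig]
    have : ∀ z, ‖F' z‖ ^ p = Real.pi * ‖F z‖ ^ p := fun z => by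
      rw [hF', hscale c hc0 F z, hcp]
    simp only [this]
    rw [integral_const_mul, (hone F).1 hF1, mul_one, smul_eq_mul]
    field_simp
  have hext' : ∀ g : ℂ → ℂ, DifferentiableOn ℂ g (ball 0 1) →
      Integrable (fun z => ‖g z‖ ^ p) Pool.Agent.X105.BE.sig →
      ∫ z, ‖g z‖ ^ p ∂Pool.Agent.X105.BE.sig = 1 →
      (∫ z, g z * (starRingEnd ℂ) (k z) ∂Pool.Agent.X105.BE.sig).re ≤
        (∫ z, F' z * (starRingEnd ℂ) (k z) ∂Pool.Agent.X105.BE.sig).re := by
    intro g hg hgi hg1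
    have hci : 0 < c⁻¹ := by positivity
    have hcip : c⁻¹ ^ p = Real.pi⁻¹ := by rw [Real.inv_rpow hc0.le, hcp]
    have h1 : ∀ z, ‖((c⁻¹ : ℝ) : ℂ) * g z‖ ^ p = Real.pi⁻¹ * ‖g z‖ ^ p := fun z => by
      rw [hscale c⁻¹ hci g z, hcip]
    have hmem : MemBergman p (fun z => ((c⁻¹ : ℝ) : ℂ) * g z) := by
      refine ⟨hg.const_mul _, ?_⟩
      simp only [h1]
      exact (Pool.Agent.X105.BE.integrable_sig.1 hgi).const_mul _
    have h2 : ∫ z in ball (0 : ℂ) 1, ‖((c⁻¹ : ℝ) : ℂ) * g z‖ ^ p = 1 := by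
      simp only [h1]
      rw [integral_const_mul]
      rw [Pool.Agent.X105.BE.integral_sig, smul_eq_mul, one_div] at hg1
      exact hg1
    have h3 := hext _ hmem ((hone _).2 h2)
    have h4 : phi k (fun z => ((c⁻¹ : ℝ) : ℂ) * g z) = ((c⁻¹ : ℝ) : ℂ) * phi k g := by
      unfold phi
      simp only [mul_assoc]
      rw [integral_const_mul]
    have h5 : ∫ z in ball (0 : ℂ) 1, F' z * (starRingEnd ℂ) (k z) = (c : ℂ) * phi k F := by
      unfold phi
      simp only [hF', mul_assoc]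
      rw [integral_const_mul]
    rw [h4, Complex.re_ofReal_mul] at h3
    rw [Pool.Agent.X105.BE.integral_sig, Pool.Agent.X105.BE.integral_sig, Complex.smul_re,
      Complex.smul_re, h5, Complex.re_ofReal_mul, smul_eq_mul, smul_eq_mul]
    apply mul_le_mul_of_nonneg_left _ (by positivity)
    have h6 := mul_le_mul_of_nonneg_left h3 hc0.le
    rwa [← mul_assoc, mul_inv_cancel₀ hc0.ne', one_mul] at h6
  obtain ⟨K, hK0, hK⟩ := Pool.Agent.X105.BE.pair_bound hpq hk.1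
    (Pool.Agent.X105.BE.integrable_sig.2 hk.2) hF'd hF'b hF'1 hext'
  obtain ⟨⟨C, hC⟩, B, -, hBp, hBi, hBr, hBb⟩ := Pool.Agent.X105.BE.bmo_main hk.1 (K := K)
    (fun R hR0 hR a ha => Pool.Agent.X105.BE.garsia hk.1 hK0 hK hR0 hR ha)
  refine ⟨⟨hk.1, C, fun r hr0 hr => ?_⟩, B, ⟨hBp, ?_⟩, hBi, hBb⟩
  · have := hC r hr0 hr
    rw [Pool.Agent.X105.BE.integral_mT, smul_eq_mul] at this
    rw [one_div]
    simpa only [circleMap, zero_add] using this
  · filter_upwards [hBr] with θ h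
    simpa only [Pool.Agent.X105.BE.ec_eq] using h

end

end Pool.Agent.Results.MP_7d928b_an.BoundedExtremalBMOA
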